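import Pool.Agent.TH942.MN.ParAux

/-!
# The parity conjecture with the Riemann hypothesis as a numerical law

Let `C : y² = x³ + a x + b` be an elliptic curve over `ℚ`, `a, b ∈ ℤ`, of rank `r`, let `m` be the order of
vanishing of its `L`-function at the centre (`s = 1` in the classical normalisation used here, so that
`(-1)^m` is the root number), `N_p` the number of affine points modulo a prime `p ∤ 2Δ`, `a_p = p - N_p`, and
`N(X)` the number of rational points of `C` whose `x`-coordinate has height at most `X`. The parity conjecture for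
`C` says `(-1)^r = (-1)^m`. Let `P(X) = ∏_{p ≤ X} (N_p + 1)/p` be the product of Birch and Swinnerton-Dyer,
`Π_k(X)` the same product with the exponents `(1 - log p / log X)^k`, and
`S(X) = (log X)⁻¹ ∑_{p ≤ X} a_p (log p)/p` the sum of Mestre and Nagao. It is shown that the following are
EQUIVALENT:

* the parity conjecture holds for `C`, and its `L`-function has no zeros with `Re s > 1` (by the functional
  equation this is the Riemann hypothesis for `C`);
* for some integer `j` and every `k > 0`, `N(X) / √Π_k(X)` is asymptotic to a constant times `(log X)^j`;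
* for some integer `j`, `log (N(X) / √Π_w(X)) / log log X → j` for ONE product with a bounded measurable weight
  `w(log p / log X)`, `∫_0 |w(u) - 1| du/u < ∞` (for instance the original product `P`);
* for some integer `j` and some constant `c`, `log (N(x) / √P(x)) - j log log x - c` tends to `0` in logarithmic
  mean;
* for some integer `j`, `S(x) - (1/2 - r)` tends to `2j` in logarithmic mean;
* for some integer `j`, `S(x) - (1/2 - r)` tends to `2j` as `x → ∞` outside a set of finite logarithmic measure,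
  and the logarithmic means of `|S|` are bounded.

So the conjecture says that the comparison of the rational points with the points modulo primes gives an INTEGRAL
power of `log X`: in general `N(X)/√Π_k(X)` is of the order of `(log X)^((r - m)/2)`.

Proof. Néron's theorem, `N(X)² ∼ K (log X)^r`; under the Riemann hypothesis `Π_k(X) ∼ c_k (log X)^m` for every
`k > 0` (the method of Riesz means of `Pool/Agent/TH942/RZ`), `log P(x) = m log log x + c + d(x)` with `d` square
integrable with respect to `dx/x` up to `o(1)` (the mean square law of helper270, `Pool/Agent/TH270/MS`), and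
`S(x) = 1/2 - m - d(x) + o(1)`; conversely every one of these laws excludes zeros with `Re s > 1` by a Laplace
transform in `log X`, and determines `m`.
-/

set_option autoImplicit false

namespace Pool.Agent.Results.MP_577099_nt.ParityLaw

open Pool.Agent.W263.BSD Filter Topology Classical MeasureTheory
open CongruenceSubgroup UpperHalfPlane
open scoped MatrixGroups

/-- The rank of the group of rational points of `y² = x³ + a x + b`. -/
noncomputable def rank (a b : ℤ) : ℕ :=
  Module.finrank ℤ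
    (WeierstrassCurve.Affine.Point
      (WeierstrassCurve.toAffine
        ({ a₁ := 0, a₂ := 0, a₃ := 0, a₄ := (a : ℚ), a₆ := (b : ℚ) } : WeierstrassCurve ℚ)))

/-- The number of rational points of `y² = x³ + a x + b`, the point at infinity included, with
`max (|m|, n) ≤ X` for the `x`-coordinate `m / n` in lowest terms. -/
noncomputable def pointsUpTo (a b : ℤ) (X : ℝ) : ℕ :=
  Nat.card {P : ℚ × ℚ // P.2 ^ 2 = P.1 ^ 3 + a * P.1 + b ∧
    (max P.1.num.natAbs P.1.den : ℝ) ≤ X} + 1

/-- The original product `P(X)` of `(N_p + 1) / p` over the primes `p ≤ X`, `p ∤ 2Δ`. -/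
noncomputable def product (a b : ℤ) (X : ℝ) : ℝ :=
  ∏ p ∈ (Finset.range (⌊X⌋₊ + 1)).filter (GoodPrime a b), (((pointCount a b p : ℝ) + 1) / p)

/-- `Π_k(X)`: the product over the primes `p ≤ X`, `p ∤ 2Δ`, of the powers of `(N_p + 1) / p` with
exponents `(1 - log p / log X)^k`. -/
noncomputable def rieszProduct (a b : ℤ) (k X : ℝ) : ℝ :=
  ∏ p ∈ (Finset.range (⌊X⌋₊ + 1)).filter (GoodPrime a b),
    (((pointCount a b p : ℝ) + 1) / p) ^ ((1 - Real.log p / Real.log X) ^ k)

/-- `Π_w(X)`: the product over the primes `p ≤ X^β`, `p ∤ 2Δ`, of the powers of `(N_p + 1) / p` with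
exponents `w(log p / log X)`. -/
noncomputable def localProduct (a b : ℤ) (w : ℝ → ℝ) (β X : ℝ) : ℝ :=
  ∏ p ∈ (Finset.range (⌊X ^ β⌋₊ + 1)).filter (GoodPrime a b),
    (((pointCount a b p : ℝ) + 1) / p) ^ w (Real.log p / Real.log X)

/-- The admissible weights on `(0, β]`: bounded and measurable, not almost everywhere `0` on any interval
`(κ, β)`, with `∫_0^β |w(u) - 1| du/u < ∞`. -/
structure IsWeight (β : ℝ) (w : ℝ → ℝ) : Prop where
  pos : 0 < β
  meas : Measurable w
  bdd : ∃ W : ℝ, ∀ u : ℝ, 0 < u → u ≤ β → |w u| ≤ W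
  top : ∀ κ : ℝ, κ < β → ¬ ∀ᵐ u : ℝ, u ∈ Set.Ioo κ β → w u = 0
  dini : IntegrableOn (fun u : ℝ => |w u - 1| / u) (Set.Ioo 0 β)

/-- `a_p = p - N_p`. -/
noncomputable def ap (a b : ℤ) (p : ℕ) : ℝ := (p : ℝ) - pointCount a b p

/-- The sum of Mestre and Nagao: the sum over the primes `p ≤ X`, `p ∤ 2Δ`, of `a_p (log p) / p`, divided by
`log X`. -/
noncomputable def nagaoSum (a b : ℤ) (X : ℝ) : ℝ :=
  (∑ p ∈ (Finset.range (⌊X⌋₊ + 1)).filter (GoodPrime a b), ap a b p * Real.log p / p) / Real.log X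

/-- The logarithmic mean `(log X)⁻¹ ∫_e^X g(x) dx/x`. -/
noncomputable def logMean (g : ℝ → ℝ) (X : ℝ) : ℝ := (∫ x in Real.exp 1..X, g x / x) / Real.log X

/-- The `n`-th Fourier coefficient of `f`. -/
noncomputable def coef {N : ℕ} (f : CuspForm (Gamma0 N : Subgroup (GL (Fin 2) ℝ)) 2) (n : ℕ) : ℂ :=
  (qExpansion 1 f).coeff n

/-- `f ∈ S_2(Γ₀(N))` is the newform of the elliptic curve `E : y² = x³ + a x + b` of conductor `N`: the
Fourier coefficients `c(n)` of `f` are real with `c(1) = 1`, they satisfy the Hecke relations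
`c(mn) = c(m) c(n)` for coprime `m`, `n` and `c(p^(j+2)) = c(p) c(p^(j+1)) - p c(p^j)` (without the last
term if `p ∣ N`), `c(p) = a_p = p - N_p` (`N_p` affine points) for all primes `p ∤ 2Δ`, `|c(p)| ≤ 2 √p` for
all `p ∤ N` (Hasse) and `c(p) = 0, 1, -1` for `p ∣ N`. -/
structure IsNewformOf (a b : ℤ) (N : ℕ) (f : CuspForm (Gamma0 N : Subgroup (GL (Fin 2) ℝ)) 2) :
    Prop where
  one : coef f 1 = 1
  real : ∀ n, (coef f n).im = 0
  mul : ∀ m n : ℕ, Nat.Coprime m n → coef f (m * n) = coef f m * coef f n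
  pow : ∀ p j : ℕ, p.Prime → coef f (p ^ (j + 2)) = coef f p * coef f (p ^ (j + 1)) -
      (if p ∣ N then 0 else (p : ℂ) * coef f (p ^ j))
  points : ∀ p : ℕ, GoodPrime a b p → coef f p = (p : ℂ) - (pointCount a b p : ℂ)
  good : ∀ p : ℕ, p.Prime → ¬ p ∣ N → ‖coef f p‖ ≤ 2 * Real.sqrt p
  bad : ∀ p : ℕ, p.Prime → p ∣ N → coef f p = 0 ∨ coef f p = 1 ∨ coef f p = -1

variable {a b : ℤ} {F : ℂ → ℂ}

theorem hecke {N : ℕ} {f : CuspForm (Gamma0 N : Subgroup (GL (Fin 2) ℝ)) 2}
    (hf : IsNewformOf a b N f) : Pool.Agent.TH941.Hecke f where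
  one := hf.one
  real := hf.real
  mul := hf.mul
  pow := hf.pow
  good := hf.good
  bad := fun p hp h => by
    rcases hf.bad p hp h with h1 | h1 | h1
    · have h2 : ‖coef f p‖ ≤ 1 := by rw [h1]; simp
      exact h2
    · have h2 : ‖coef f p‖ ≤ 1 := by rw [h1]; simp
      exact h2
    · have h2 : ‖coef f p‖ ≤ 1 := by rw [h1]; simp
      exact h2

theorem rs {N : ℕ} [NeZero N] {f : CuspForm (Gamma0 N : Subgroup (GL (Fin 2) ℝ)) 2}
    (hΔ : 4 * a ^ 3 + 27 * b ^ 2 ≠ 0) (hf : IsNewformOf a b N f) :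
    Tendsto (Pool.Agent.W263.BSD.rsSum a b) atTop (𝓝 0) :=
  (hecke hf).rsSum_tendsto hΔ fun p hp => hf.points p hp

theorem belongs {N : ℕ} {f : CuspForm (Gamma0 N : Subgroup (GL (Fin 2) ℝ)) 2}
    (hf : IsNewformOf a b N f) : Pool.Agent.TH941.Belongs a b f := fun p hp => hf.points p hp

theorem loglog_tendsto : Tendsto (fun X : ℝ => Real.log (Real.log X)) atTop atTop :=
  Real.tendsto_log_atTop.comp Real.tendsto_log_atTop

theorem factor_pos {p : ℕ} (hp : GoodPrime a b p) : 0 < ((pointCount a b p : ℝ) + 1) / p := by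
  have hp0 : (0 : ℝ) < p := by exact_mod_cast hp.1.pos
  positivity

theorem rieszProduct_pos (a b : ℤ) (k X : ℝ) : 0 < rieszProduct a b k X :=
  Finset.prod_pos fun _ hp => Real.rpow_pos_of_pos (factor_pos (Finset.mem_filter.1 hp).2) _

theorem localProduct_pos (a b : ℤ) (w : ℝ → ℝ) (β X : ℝ) : 0 < localProduct a b w β X :=
  Finset.prod_pos fun _ hp => Real.rpow_pos_of_pos (factor_pos (Finset.mem_filter.1 hp).2) _

theorem points_pos (a b : ℤ) (X : ℝ) : (0 : ℝ) < pointsUpTo a b X :=
  one_pos.trans_le (TH942.MN.one_le_points a b X)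

theorem log_rieszProduct (a b : ℤ) (k X : ℝ) :
    Real.log (rieszProduct a b k X) = TH942.RZ.rz a b k X := by
  unfold rieszProduct TH942.RZ.rz
  rw [Real.log_prod fun p hp => (Real.rpow_pos_of_pos (factor_pos (Finset.mem_filter.1 hp).2) _).ne']
  refine Finset.sum_congr rfl fun p hp => ?_
  rw [Real.log_rpow (factor_pos (Finset.mem_filter.1 hp).2)]

/-- the Riesz weight is admissible -/
theorem riesz_weight {k : ℝ} (hk : 0 < k) : IsWeight 1 (TH942.RZ.rzv k) where
  pos := one_pos
  meas := (TH942.RZ.rzv_Wt hk).meas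
  bdd := ⟨1, fun u _ _ => (TH942.RZ.rzv_Wt hk).bd u⟩
  top := TH942.RZ.rzv_top
  dini := TH942.RZ.rzv_dini hk

theorem riesz_eq_local {k : ℝ} {X : ℝ} (hX : 1 < X) :
    rieszProduct a b k X = localProduct a b (TH942.RZ.rzv k) 1 X := by
  unfold rieszProduct localProduct
  rw [Real.rpow_one]
  refine Finset.prod_congr rfl fun p hp => ?_
  obtain ⟨h1, h2⟩ := Finset.mem_filter.1 hp
  have hT : 0 < Real.log X := Real.log_pos hX
  have hp1 : (1 : ℝ) < p := by exact_mod_cast h2.1.one_lt
  have h3 : (p : ℝ) ≤ X := by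
    rw [Finset.mem_range, Nat.lt_succ_iff] at h1
    exact (Nat.le_floor_iff (by linarith)).1 h1
  have h4 : Real.log p / Real.log X ≤ 1 := by
    rw [div_le_one hT]
    exact Real.log_le_log (by linarith) h3
  have h5 : 0 < Real.log p / Real.log X := div_pos (Real.log_pos hp1) hT
  unfold TH942.RZ.rzv
  rw [Set.indicator_of_mem (show Real.log p / Real.log X ∈ Set.Ioc (0 : ℝ) 1 from ⟨h5, h4⟩)]
  unfold TH942.RZ.rzw
  rw [max_eq_left (by linarith)]

theorem sum_eq (a b : ℤ) : nagaoSum a b = TH942.MN.nag a b := by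
  funext X
  unfold nagaoSum TH942.MN.nag TH942.MN.St TH942.MN.gs
  congr 1
  refine Finset.sum_congr rfl fun p hp => ?_
  unfold TH942.MN.tE ap
  beta_reduce
  rw [if_pos (Finset.mem_filter.1 hp).2]
  ring

/-- the logarithm of the quotient by a square root -/
theorem log_quot (a b : ℤ) {Q : ℝ} (hQ : 0 < Q) (X : ℝ) :
    Real.log (pointsUpTo a b X / Real.sqrt Q) = Real.log (pointsUpTo a b X) - Real.log Q / 2 := by
  rw [Real.log_div (points_pos a b X).ne' (Real.sqrt_pos.2 hQ).ne', Real.log_sqrt hQ.le]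

/-- **The parity conjecture together with the Riemann hypothesis is equivalent to numerical laws.** -/
theorem result (a b : ℤ) (hΔ : 4 * a ^ 3 + 27 * b ^ 2 ≠ 0) (F : ℂ → ℂ) (hF : IsLSeries a b F)
    (N : ℕ) [NeZero N] (f : CuspForm (Gamma0 N : Subgroup (GL (Fin 2) ℝ)) 2)
    (hf : IsNewformOf a b N f) : List.TFAE [
      (∃ m : ℕ, analyticOrderAt F 1 = m ∧ (-1 : ℤ) ^ rank a b = (-1) ^ m) ∧
        ∀ s : ℂ, 1 < s.re → F s ≠ 0,
      ∃ j : ℤ, ∀ k : ℝ, 0 < k → ∃ L : ℝ, 0 < L ∧
        Tendsto (fun X : ℝ => pointsUpTo a b X /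
          (Real.sqrt (rieszProduct a b k X) * Real.log X ^ j)) atTop (𝓝 L),
      ∃ (j : ℤ) (β : ℝ) (w : ℝ → ℝ), IsWeight β w ∧
        Tendsto (fun X : ℝ => Real.log (pointsUpTo a b X / Real.sqrt (localProduct a b w β X)) /
          Real.log (Real.log X)) atTop (𝓝 j),
      ∃ (j : ℤ) (c : ℝ), Tendsto (logMean fun x =>
        |Real.log (pointsUpTo a b x / Real.sqrt (product a b x)) - j * Real.log (Real.log x) - c|)
          atTop (𝓝 0),
      ∃ j : ℤ, Tendsto (logMean fun x => |nagaoSum a b x - (1 / 2 - rank a b) - 2 * j|) atTop (𝓝 0),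
      ∃ j : ℤ, (∃ E : Set ℝ, MeasurableSet E ∧ (∫⁻ x in E, ENNReal.ofReal (1 / x)) < ⊤ ∧
          Tendsto (fun x => nagaoSum a b x - (1 / 2 - rank a b)) (atTop ⊓ 𝓟 Eᶜ) (𝓝 (2 * j))) ∧
        ∃ B : ℝ, ∀ᶠ X : ℝ in atTop, logMean (fun x => |nagaoSum a b x|) X ≤ B] := by
  have hrs := rs hΔ hf
  have hh := hecke hf
  have hb := belongs hf
  have hgr := TH942.RZ.growth_newform hΔ hF hh hb
  obtain ⟨C₀, κ₀, hg⟩ := Pool.Agent.TH270.MS.EQ.growth_F hΔ hF hh hb
  obtain ⟨m, hm⟩ := Pool.Agent.W189.ML.order_finite_all hF 1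
  obtain ⟨K, hK⟩ := TH942.MN.log_points (a := a) (b := b) hΔ
  have hlm : logMean = Pool.Agent.TH270.MS.lmean := rfl
  rw [sum_eq, hlm]
  have hprod : product a b = bsdProduct a b := rfl
  rw [hprod]
  have bn : ∀ l : ℝ, Pool.Agent.TH270.MS.BM fun y => TH942.MN.nag a b y - l := fun l =>
    TH942.MN.bm_nag.sub (Pool.Agent.TH270.MS.BM.const _)
  have hK' : Tendsto (fun X : ℝ => 2 * Real.log (pointsUpTo a b X) -
      (rank a b : ℝ) * Real.log (Real.log X)) atTop (𝓝 K) := hK
  -- the parity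
  have hpar : (∃ m' : ℕ, analyticOrderAt F 1 = m' ∧ (-1 : ℤ) ^ rank a b = (-1) ^ m') →
      ∃ j : ℤ, (rank a b : ℝ) = m + 2 * j := by
    rintro ⟨m', h1, h2⟩
    have h3 : m = m' := by
      rw [hm] at h1
      exact_mod_cast h1
    subst h3
    exact (TH942.MN.par_iff _ _).1 h2
  have hpar' : ∀ j : ℤ, (rank a b : ℝ) = m + 2 * j →
      ∃ m' : ℕ, analyticOrderAt F 1 = m' ∧ (-1 : ℤ) ^ rank a b = (-1) ^ m' := fun j hj =>
    ⟨m, hm, (TH942.MN.par_iff _ _).2 ⟨j, hj⟩⟩
  tfae_have 1 → 2 := by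
    rintro ⟨h1, h2⟩
    obtain ⟨j, hj⟩ := hpar h1
    refine ⟨j, fun k hk => ?_⟩
    obtain ⟨κ, h3, -⟩ := TH942.RZ.curve_riesz hΔ hrs hgr hF hm h2 hk
    refine ⟨Real.exp ((K - κ) / 2), Real.exp_pos _, ?_⟩
    have h4 := (Real.continuous_exp.tendsto _).comp
      ((hK'.sub (h3.comp Real.tendsto_log_atTop)).div_const 2)
    refine h4.congr' ?_
    filter_upwards [eventually_gt_atTop 1] with X hX
    have hl : 0 < Real.log X := Real.log_pos hX
    have hN := points_pos a b X
    have hP := rieszProduct_pos a b k X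
    have hs := Real.sqrt_pos.2 hP
    have hz : 0 < Real.log X ^ j := zpow_pos hl j
    have hq : 0 < (pointsUpTo a b X : ℝ) / (Real.sqrt (rieszProduct a b k X) * Real.log X ^ j) := by
      positivity
    rw [Function.comp_apply, ← Real.exp_log hq]
    congr 1
    rw [Real.log_div hN.ne' (by positivity), Real.log_mul hs.ne' hz.ne', Real.log_sqrt hP.le,
      Real.log_zpow, log_rieszProduct, TH942.RZ.rz_eq hk hX, Function.comp_apply, hj]
    ring
  tfae_have 2 → 3 := by
    rintro ⟨j, h⟩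
    obtain ⟨L, hL, h1⟩ := h 1 one_pos
    refine ⟨j, 1, TH942.RZ.rzv 1, riesz_weight one_pos, ?_⟩
    have h2 := ((h1.log hL.ne').div_atTop loglog_tendsto).add_const (j : ℝ)
    rw [zero_add] at h2
    refine h2.congr' ?_
    filter_upwards [eventually_gt_atTop 1, loglog_tendsto.eventually (eventually_gt_atTop 0)]
      with X hX hX2
    have hl : 0 < Real.log X := Real.log_pos hX
    have hN := points_pos a b X
    have hP := rieszProduct_pos a b 1 X
    have hs := Real.sqrt_pos.2 hP
    have hz : 0 < Real.log X ^ j := zpow_pos hl j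
    rw [← riesz_eq_local hX, Real.log_div hN.ne' (by positivity), Real.log_mul hs.ne' hz.ne',
      Real.log_zpow, Real.log_div hN.ne' hs.ne']
    field_simp
    ring
  tfae_have 3 → 1 := by
    rintro ⟨j, β, w, hw, h⟩
    obtain ⟨m', hm', -, h1, -⟩ := TH942.RZ.Self.self_similar a b hΔ F hF β hw.pos w hw.meas hw.bdd
      hw.top hw.dini
    have h2 : m = m' := by
      rw [hm] at hm'
      exact_mod_cast hm'
    subst h2
    have h3 := h1 (2 * j) ((h.const_mul 2).congr fun X => by
      have hN := points_pos a b X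
      have hP := localProduct_pos a b w β X
      rw [log_quot a b hP]
      have h5 : Real.log ((pointsUpTo a b X : ℝ) ^ 2 / localProduct a b w β X) =
          2 * Real.log (pointsUpTo a b X) - Real.log (localProduct a b w β X) := by
        rw [Real.log_div (by positivity) hP.ne', Real.log_pow]
        norm_num
      have h6 : Real.log ((TH942.RZ.Self.pointsUpTo a b X : ℝ) ^ 2 /
          TH942.RZ.Self.localProduct a b w β X) =
          2 * Real.log (pointsUpTo a b X) - Real.log (localProduct a b w β X) := h5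
      rw [h6]
      ring)
    have h4 : (TH942.RZ.Self.rank a b : ℝ) = rank a b := rfl
    rw [h4] at h3
    exact ⟨hpar' j (by linarith [h3.2]), h3.1⟩
  have bmN : Pool.Agent.TH270.MS.BM fun x => Real.log (pointsUpTo a b x) :=
    TH942.MN.bm_points hΔ
  have bmP := Pool.Agent.TH270.MS.EQ.bm_product a b
  have bmv : ∀ (j : ℤ) (c : ℝ), Pool.Agent.TH270.MS.BM fun x =>
      Real.log (pointsUpTo a b x / Real.sqrt (bsdProduct a b x)) - j * Real.log (Real.log x) - c := by
    intro j c
    refine Pool.Agent.TH270.MS.EQ.BM.congr (((bmN.sub ((Pool.Agent.TH270.MS.BM.const (1 / 2)).mul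
      bmP)).sub ((Pool.Agent.TH270.MS.BM.const (j : ℝ)).mul Pool.Agent.TH270.MS.BM.loglog)).sub
      (Pool.Agent.TH270.MS.BM.const c)) fun x _ => ?_
    rw [log_quot a b (bsdProduct_pos x)]
    ring
  tfae_have 1 → 4 := by
    rintro ⟨h1, h2⟩
    obtain ⟨j, hj⟩ := hpar h1
    obtain ⟨C, hC, h3, -⟩ := TH942.MN.law_of_rh hΔ hF hh hb hrs hm h2
    have bd := Pool.Agent.TH270.MS.EQ.bm_dev a b (ρ := m) hC
    have h4 := Pool.Agent.TH270.MS.lmean_of_sq bd.li bd.sq.li h3
    have b2 : Pool.Agent.TH270.MS.BM fun x => -(1 / 2) * Pool.Agent.TH270.MS.EQ.dev a b m C x :=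
      (Pool.Agent.TH270.MS.BM.const _).mul bd
    refine ⟨j, (K - Real.log C) / 2, ?_⟩
    rw [Pool.Agent.TH270.MS.lmean_iff (bmv j _).li b2.li]
    · have h5 := h4.const_mul (1 / 2)
      rw [mul_zero] at h5
      refine h5.congr fun Y => ?_
      rw [← TH942.MN.lmean_mul]
      congr 1
      funext x
      rw [abs_mul, abs_neg, abs_of_pos (by norm_num : (0 : ℝ) < 1 / 2)]
    · have h6 := (hK'.sub_const K).div_const 2
      rw [sub_self, zero_div] at h6
      refine h6.congr' ?_
      filter_upwards [eventually_ge_atTop (Real.exp 1)] with x hx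
      rw [log_quot a b (bsdProduct_pos x), Pool.Agent.TH270.MS.EQ.dev_eq hC hx, hj]
      ring
  tfae_have 4 → 1 := by
    rintro ⟨j, c, h⟩
    set C : ℝ := Real.exp (K - 2 * c) with hCdef
    have hC : 0 < C := Real.exp_pos _
    have bd := Pool.Agent.TH270.MS.EQ.bm_dev a b (ρ := (rank a b : ℝ) - 2 * j) hC
    have b2 : Pool.Agent.TH270.MS.BM fun x => (-2) *
        (Real.log (pointsUpTo a b x / Real.sqrt (bsdProduct a b x)) -
          j * Real.log (Real.log x) - c) := (Pool.Agent.TH270.MS.BM.const _).mul (bmv j c)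
    have h1 : Tendsto (Pool.Agent.TH270.MS.lmean fun x =>
        |Pool.Agent.TH270.MS.EQ.dev a b ((rank a b : ℝ) - 2 * j) C x|) atTop (𝓝 0) := by
      rw [Pool.Agent.TH270.MS.lmean_iff bd.li b2.li]
      · have h5 := h.const_mul 2
        rw [mul_zero] at h5
        refine h5.congr fun Y => ?_
        rw [← TH942.MN.lmean_mul]
        congr 1
        funext x
        rw [abs_mul, abs_neg, abs_of_pos (by norm_num : (0 : ℝ) < 2)]
      · have h6 := hK'.sub_const K
        rw [sub_self] at h6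
        refine h6.congr' ?_
        filter_upwards [eventually_ge_atTop (Real.exp 1)] with x hx
        rw [log_quot a b (bsdProduct_pos x), Pool.Agent.TH270.MS.EQ.dev_eq hC hx, hCdef,
          Real.log_exp]
        ring
    have hlaw := Pool.Agent.TH270.MS.EQ.curve_law hΔ hF hrs (η := 1 / 8) (by norm_num) hg
      ((rank a b : ℝ) - 2 * j) hC
    obtain ⟨h2, m', h3, h4, -⟩ := (hlaw.out 1 0).1 h1
    have h5 : m = m' := by
      rw [hm] at h4
      exact_mod_cast h4
    subst h5
    exact ⟨hpar' j (by linarith), h2⟩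
  tfae_have 1 → 5 := by
    rintro ⟨h1, h2⟩
    obtain ⟨j, hj⟩ := hpar h1
    refine ⟨j, ?_⟩
    have h3 := Pool.Agent.TH270.MS.lmean_of_sq (bn _).li (bn _).sq.li
      (TH942.MN.mean_of_rh hΔ hF hh hb hrs hm h2)
    refine h3.congr fun Y => ?_
    congr 1
    funext x
    congr 1
    rw [hj]
    ring
  tfae_have 5 → 1 := by
    rintro ⟨j, h⟩
    have h1 : Tendsto (Pool.Agent.TH270.MS.lmean fun x =>
        |TH942.MN.nag a b x - (1 / 2 - rank a b + 2 * j)|) atTop (𝓝 0) := by
      refine h.congr fun Y => ?_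
      congr 1
      funext x
      congr 1
      ring
    obtain ⟨h2, h3⟩ := TH942.MN.back_of_mean hΔ hF hh hb hrs hm h1
    exact ⟨hpar' j (by linarith), h2⟩
  tfae_have 1 → 6 := by
    rintro ⟨h1, h2⟩
    obtain ⟨j, hj⟩ := hpar h1
    obtain ⟨E, h3, h4, h5⟩ := TH942.MN.off_of_rh hΔ hF hh hb hrs hm h2
    refine ⟨j, ⟨E, h3, h4, ?_⟩, TH942.MN.bdd_of_rh hΔ hF hh hb hrs hm h2⟩
    have h6 := h5.sub_const (1 / 2 - (rank a b : ℝ))
    have h7 : 1 / 2 - (m : ℝ) - (1 / 2 - (rank a b : ℝ)) = 2 * j := by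
      rw [hj]
      ring
    rw [h7] at h6
    exact h6
  tfae_have 6 → 1 := by
    rintro ⟨j, ⟨E, _, h1, h2⟩, B, hB⟩
    have hz := TH942.MN.crit_bdd' hΔ hF hh hb hB
    obtain ⟨E', _, h3, h4⟩ := TH942.MN.off_of_rh hΔ hF hh hb hrs hm hz
    have := TH942.MN.unbounded_compl h1 h3
    have h5 := tendsto_nhds_unique
      (h2.mono_left (inf_le_inf_left atTop (principal_mono.2
        (Set.compl_subset_compl.2 (Set.subset_union_left (s := E) (t := E'))))))
      ((h4.sub_const (1 / 2 - (rank a b : ℝ))).mono_left (inf_le_inf_left atTop (principal_mono.2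
        (Set.compl_subset_compl.2 (Set.subset_union_right (s := E) (t := E'))))))
    exact ⟨hpar' j (by linarith), hz⟩
  tfae_finish

end Pool.Agent.Results.MP_577099_nt.ParityLaw
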